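import Mathlib

/-!
# The first Bieberbach theorem for groups acting freely (Buser's proof)

`E` is a finite dimensional real inner product space. A rigid motion `x ↦ A x + a` is the pair
`(A, a)`. `IsBieb G`: the set `G` of rigid motions is closed under composition and inverses, its
translation parts are separated and it is cocompact.

Main results: `small_trans`: every element of `G` whose rotation part is within `1 / 2` of the
identity is a translation; `span_trans`: the translations of `G` span `E`; `finite_classes`: `G` is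
finite modulo `N` times its translations.
-/

set_option autoImplicit false

open scoped InnerProductSpace

namespace Pool.Agent.H29.Bieb

variable {E : Type*} [NormedAddCommGroup E] [InnerProductSpace ℝ E]

/-- The distance of a linear isometry to the identity. -/
noncomputable def dev (A : E ≃ₗᵢ[ℝ] E) : ℝ :=
  ‖(A.toContinuousLinearEquiv : E →L[ℝ] E) - ContinuousLinearMap.id ℝ E‖

lemma dev_nonneg (A : E ≃ₗᵢ[ℝ] E) : 0 ≤ dev A := norm_nonneg _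

lemma dev_le (A : E ≃ₗᵢ[ℝ] E) (x : E) : ‖A x - x‖ ≤ dev A * ‖x‖ := by
  have := ((A.toContinuousLinearEquiv : E →L[ℝ] E) - ContinuousLinearMap.id ℝ E).le_opNorm x
  simpa [dev] using this

lemma dev_le_of {A : E ≃ₗᵢ[ℝ] E} {c : ℝ} (hc : 0 ≤ c) (h : ∀ x, ‖A x - x‖ ≤ c * ‖x‖) :
    dev A ≤ c := by
  refine ContinuousLinearMap.opNorm_le_bound _ hc fun x => ?_
  simpa using h x

lemma dev_eq_zero {A : E ≃ₗᵢ[ℝ] E} (h : dev A = 0) : A = 1 := by
  ext x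
  have := dev_le A x
  rw [h, zero_mul] at this
  have h2 : A x - x = 0 := norm_le_zero_iff.1 this
  simpa [sub_eq_zero] using h2

lemma mul_app (A B : E ≃ₗᵢ[ℝ] E) (x : E) : (A * B) x = A (B x) := rfl

lemma inv_app (A : E ≃ₗᵢ[ℝ] E) (x : E) : A (A⁻¹ x) = x := A.apply_symm_apply x

lemma inv_app' (A : E ≃ₗᵢ[ℝ] E) (x : E) : A⁻¹ (A x) = x := A.symm_apply_apply x

lemma one_app (x : E) : (1 : E ≃ₗᵢ[ℝ] E) x = x := rfl

lemma inner_inv (A : E ≃ₗᵢ[ℝ] E) (x y : E) : ⟪A⁻¹ x, y⟫_ℝ = ⟪x, A y⟫_ℝ := by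
  rw [← A.inner_map_map (A⁻¹ x) y, inv_app]

/-- The commutator of two linear isometries is closer to the identity. -/
lemma dev_comm (A B : E ≃ₗᵢ[ℝ] E) : dev (A * B * A⁻¹ * B⁻¹) ≤ 2 * dev A * dev B := by
  refine dev_le_of (by have := dev_nonneg A; have := dev_nonneg B; positivity) fun x => ?_
  set y := A⁻¹ (B⁻¹ x) with hy
  have hx : x = B (A y) := by rw [hy, inv_app, inv_app]
  have hyn : ‖y‖ = ‖x‖ := by rw [hx, B.norm_map, A.norm_map]
  have e1 : (A * B * A⁻¹ * B⁻¹) x = A (B y) := rfl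
  have e2 : A (B y) - x = (A (B y - y) - (B y - y)) - (B (A y - y) - (A y - y)) := by
    rw [hx, map_sub, map_sub]; abel
  rw [e1, e2]
  have h1 := dev_le A (B y - y)
  have h2 := dev_le B (A y - y)
  have h3 := dev_le A y
  have h4 := dev_le B y
  have h5 := dev_nonneg A
  have h6 := dev_nonneg B
  calc ‖(A (B y - y) - (B y - y)) - (B (A y - y) - (A y - y))‖
      ≤ ‖A (B y - y) - (B y - y)‖ + ‖B (A y - y) - (A y - y)‖ := norm_sub_le _ _
    _ ≤ dev A * (dev B * ‖y‖) + dev B * (dev A * ‖y‖) := by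
        refine add_le_add (h1.trans ?_) (h2.trans ?_)
        · exact mul_le_mul_of_nonneg_left h4 h5
        · exact mul_le_mul_of_nonneg_left h3 h6
    _ = 2 * dev A * dev B * ‖x‖ := by rw [hyn]; ring

/-- A set of rigid motions `x ↦ A x + a`, closed under composition and inverses, whose elements
other than the identity move the origin by at least `r > 0`, and which is cocompact. -/
structure IsBieb (G : Set ((E ≃ₗᵢ[ℝ] E) × E)) : Prop where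
  mul : ∀ g ∈ G, ∀ h ∈ G, (g.1 * h.1, g.2 + g.1 h.2) ∈ G
  inv : ∀ g ∈ G, (g.1⁻¹, -(g.1⁻¹ g.2)) ∈ G
  disc : ∃ r > 0, ∀ g ∈ G, ‖g.2‖ < r → g = (1, 0)
  cocpt : ∃ R : ℝ, ∀ v : E, ∃ g ∈ G, ‖v - g.2‖ ≤ R

/-! ### The extremal eigenspace of a linear isometry -/

/-- The space on which `A` moves every vector by the maximal amount. -/
noncomputable def topE (A : E ≃ₗᵢ[ℝ] E) : Submodule ℝ E where
  carrier := {x | A x + A⁻¹ x = (2 - dev A ^ 2) • x}
  add_mem' := by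
    intro x y hx hy
    simp only [Set.mem_ofPred_eq] at *
    rw [map_add, map_add, smul_add, ← hx, ← hy]; abel
  zero_mem' := by simp
  smul_mem' := by
    intro c x hx
    simp only [Set.mem_ofPred_eq] at *
    rw [map_smul, map_smul, ← smul_add, hx, smul_comm]

lemma mem_topE {A : E ≃ₗᵢ[ℝ] E} {x : E} : x ∈ topE A ↔ A x + A⁻¹ x = (2 - dev A ^ 2) • x :=
  Iff.rfl

lemma topE_app {A : E ≃ₗᵢ[ℝ] E} {x : E} (hx : x ∈ topE A) : A x ∈ topE A := by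
  rw [mem_topE] at *
  rw [inv_app', ← map_smul, ← hx, map_add, inv_app]

lemma topE_inv {A : E ≃ₗᵢ[ℝ] E} {x : E} (hx : x ∈ topE A) : A⁻¹ x ∈ topE A := by
  rw [mem_topE] at *
  rw [inv_app, ← map_smul, ← hx, map_add, inv_app']

lemma topE_perp_app {A : E ≃ₗᵢ[ℝ] E} {x : E} (hx : x ∈ (topE A)ᗮ) : A x ∈ (topE A)ᗮ := by
  rw [Submodule.mem_orthogonal] at *
  intro u hu
  rw [← inner_inv]
  exact hx _ (topE_inv hu)

lemma norm_sub_sq_eq (A : E ≃ₗᵢ[ℝ] E) (x : E) :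
    ‖A x - x‖ ^ 2 = 2 * ‖x‖ ^ 2 - 2 * ⟪A x, x⟫_ℝ := by
  rw [norm_sub_sq_real, A.norm_map]; ring

lemma inner_ge (A : E ≃ₗᵢ[ℝ] E) (x : E) :
    (2 - dev A ^ 2) * ‖x‖ ^ 2 ≤ 2 * ⟪A x, x⟫_ℝ := by
  have h1 := dev_le A x
  have h2 : ‖A x - x‖ ^ 2 ≤ (dev A * ‖x‖) ^ 2 := pow_le_pow_left₀ (norm_nonneg _) h1 2
  rw [norm_sub_sq_eq] at h2
  nlinarith

lemma topE_norm {A : E ≃ₗᵢ[ℝ] E} {x : E} (hx : x ∈ topE A) : ‖A x - x‖ = dev A * ‖x‖ := by
  have h1 : ⟪A x + A⁻¹ x, x⟫_ℝ = (2 - dev A ^ 2) * ‖x‖ ^ 2 := by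
    rw [mem_topE.1 hx, real_inner_smul_left, real_inner_self_eq_norm_sq]
  rw [inner_add_left, inner_inv, real_inner_comm (A x) x] at h1
  have h2 := norm_sub_sq_eq A x
  have h3 : ‖A x - x‖ ^ 2 = (dev A * ‖x‖) ^ 2 := by
    rw [h2]; linarith
  exact (pow_left_inj₀ (norm_nonneg _) (mul_nonneg (dev_nonneg A) (norm_nonneg x))
    two_ne_zero).1 h3

/-- A vector which is moved by the maximal amount is in `topE A`. -/
lemma topE_of_norm {A : E ≃ₗᵢ[ℝ] E} {x : E} (hx : dev A * ‖x‖ ≤ ‖A x - x‖) : x ∈ topE A := by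
  have hQ : ∀ y : E, 0 ≤ 2 * ⟪A y, y⟫_ℝ - (2 - dev A ^ 2) * ⟪y, y⟫_ℝ := by
    intro y
    rw [real_inner_self_eq_norm_sq]
    linarith [inner_ge A y]
  have hx0 : 2 * ⟪A x, x⟫_ℝ - (2 - dev A ^ 2) * ⟪x, x⟫_ℝ ≤ 0 := by
    have h2 : (dev A * ‖x‖) ^ 2 ≤ ‖A x - x‖ ^ 2 :=
      pow_le_pow_left₀ (mul_nonneg (dev_nonneg A) (norm_nonneg x)) hx 2
    rw [norm_sub_sq_eq] at h2
    rw [real_inner_self_eq_norm_sq]
    nlinarith
  rw [mem_topE, ← sub_eq_zero]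
  set z := A x + A⁻¹ x - (2 - dev A ^ 2) • x with hz
  -- the quadratic form at `x + t z`
  have key : ∀ t : ℝ, 0 ≤ 2 * t * ⟪z, z⟫_ℝ +
      t ^ 2 * (2 * ⟪A z, z⟫_ℝ - (2 - dev A ^ 2) * ⟪z, z⟫_ℝ) := by
    intro t
    have h := hQ (x + t • z)
    have e1 : ⟪A (x + t • z), x + t • z⟫_ℝ = ⟪A x, x⟫_ℝ + t * (⟪A x, z⟫_ℝ + ⟪A⁻¹ x, z⟫_ℝ) +
        t ^ 2 * ⟪A z, z⟫_ℝ := by
      rw [inner_inv, map_add, map_smul, inner_add_left, inner_add_right, inner_add_right,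
        real_inner_smul_left, real_inner_smul_right, real_inner_smul_left, real_inner_smul_right,
        real_inner_comm x (A z)]
      ring
    have e2 : ⟪x + t • z, x + t • z⟫_ℝ = ⟪x, x⟫_ℝ + 2 * t * ⟪x, z⟫_ℝ + t ^ 2 * ⟪z, z⟫_ℝ := by
      rw [inner_add_left, inner_add_right, inner_add_right,
        real_inner_smul_left, real_inner_smul_right, real_inner_smul_left, real_inner_smul_right,
        real_inner_comm x z]
      ring
    have e3 : ⟪z, z⟫_ℝ = ⟪A x, z⟫_ℝ + ⟪A⁻¹ x, z⟫_ℝ - (2 - dev A ^ 2) * ⟪x, z⟫_ℝ := by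
      conv_lhs => rw [hz]
      rw [← hz, inner_sub_left, inner_add_left, real_inner_smul_left]
    rw [e1, e2] at h
    have e4 : 2 * t * ⟪z, z⟫_ℝ = 2 * t * (⟪A x, z⟫_ℝ + ⟪A⁻¹ x, z⟫_ℝ) -
      2 * t * (2 - dev A ^ 2) * ⟪x, z⟫_ℝ := by
      rw [e3]; ring
    rw [e4]
    nlinarith
  by_contra hne
  have hzz : 0 < ⟪z, z⟫_ℝ := real_inner_self_pos.2 hne
  set c := 2 * ⟪A z, z⟫_ℝ - (2 - dev A ^ 2) * ⟪z, z⟫_ℝ with hc
  have hc0 : 0 ≤ c := hQ z
  have h := key (-(⟪z, z⟫_ℝ / (c + 1)))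
  have hc1 : 0 < c + 1 := by linarith
  have e5 : 2 * -(⟪z, z⟫_ℝ / (c + 1)) * ⟪z, z⟫_ℝ + (-(⟪z, z⟫_ℝ / (c + 1))) ^ 2 * c =
      -(⟪z, z⟫_ℝ ^ 2 / (c + 1) ^ 2 * (c + 2)) := by
    field_simp
    ring
  rw [e5] at h
  have : 0 < ⟪z, z⟫_ℝ ^ 2 / (c + 1) ^ 2 * (c + 2) := by positivity
  linarith

end Pool.Agent.H29.Bieb
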