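import Pool.Agent.H29.Bieb.Small

/-!
# The first Bieberbach theorem: the translations span, finite index
-/

set_option autoImplicit false

open scoped InnerProductSpace
open Filter Topology

namespace Pool.Agent.H29.Bieb

variable {E : Type*} [NormedAddCommGroup E] [InnerProductSpace ℝ E]

/-- The translations of `G`. -/
def trans {G : Set ((E ≃ₗᵢ[ℝ] E) × E)} (hG : IsBieb G) : AddSubgroup E where
  carrier := {a | ((1 : E ≃ₗᵢ[ℝ] E), a) ∈ G}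
  add_mem' := by
    intro a b ha hb
    have := hG.mul _ ha _ hb
    simpa using this
  zero_mem' := by
    obtain ⟨R, hR⟩ := hG.cocpt
    obtain ⟨g, hg, -⟩ := hR 0
    have := hG.mul _ hg _ (hG.inv _ hg)
    simpa [inv_app] using this
  neg_mem' := by
    intro a ha
    have := hG.inv _ ha
    simpa using this

lemma mem_trans {G : Set ((E ≃ₗᵢ[ℝ] E) × E)} {hG : IsBieb G} {a : E} :
    a ∈ trans hG ↔ ((1 : E ≃ₗᵢ[ℝ] E), a) ∈ G := Iff.rfl

/-- Elements of `G` with near translation parts are equal. -/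
lemma eq_of_near {G : Set ((E ≃ₗᵢ[ℝ] E) × E)} (hG : IsBieb G) {r : ℝ}
    (hr : ∀ g ∈ G, ‖g.2‖ < r → g = (1, 0)) {g h : (E ≃ₗᵢ[ℝ] E) × E} (hg : g ∈ G) (hh : h ∈ G)
    (hgh : ‖g.2 - h.2‖ < r) : g = h := by
  have h1 := hG.mul _ (hG.inv _ hh) _ hg
  have h2 : -(h.1⁻¹ h.2) + h.1⁻¹ g.2 = h.1⁻¹ (g.2 - h.2) := by
    rw [map_sub]; abel
  have h3 := hr _ h1 (by
    change ‖-(h.1⁻¹ h.2) + h.1⁻¹ g.2‖ < r
    rw [h2, LinearIsometryEquiv.norm_map]
    exact hgh)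
  rw [Prod.mk.injEq] at h3
  obtain ⟨h4, h5⟩ := h3
  have h6 : g.1 = h.1 := by
    have := inv_mul_eq_one.1 h4
    exact this.symm
  have h7 : g.2 - h.2 = 0 := by
    rw [← norm_eq_zero, ← LinearIsometryEquiv.norm_map h.1⁻¹, ← h2]
    change ‖-(h.1⁻¹ h.2) + h.1⁻¹ g.2‖ = 0
    rw [h5, norm_zero]
  exact Prod.ext h6 (sub_eq_zero.1 h7)

variable [FiniteDimensional ℝ E]

lemma finite_ball {G : Set ((E ≃ₗᵢ[ℝ] E) × E)} (hG : IsBieb G) (D : ℝ) :
    {g | g ∈ G ∧ ‖g.2‖ ≤ D}.Finite := by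
  have : ProperSpace E := FiniteDimensional.proper_real E
  obtain ⟨r, hr0, hr⟩ := hG.disc
  have htb := (isCompact_closedBall (0 : E) D).totallyBounded
  rw [Metric.totallyBounded_iff] at htb
  obtain ⟨t, ht, hcov⟩ := htb (r / 2) (by positivity)
  have hex : ∀ g ∈ {g | g ∈ G ∧ ‖g.2‖ ≤ D}, ∃ y ∈ t, ‖g.2 - y‖ < r / 2 := by
    rintro g ⟨-, hg⟩
    have := hcov (mem_closedBall_zero_iff.2 hg)
    simp only [Set.mem_iUnion, Metric.mem_ball, exists_prop, dist_eq_norm] at this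
    exact this
  choose! f hft hf using hex
  refine Set.Finite.of_injOn (f := f) (t := t) hft ?_ ht
  intro g hg h hh hfe
  refine eq_of_near hG hr hg.1 hh.1 ?_
  have h1 := hf g hg
  have h2 := hf h hh
  rw [← hfe] at h2
  have h3 : g.2 - h.2 = (g.2 - f g) - (h.2 - f g) := by abel
  rw [h3]
  refine (norm_sub_le _ _).trans_lt ?_
  linarith

/-- **Bieberbach's first theorem**: the translations of `G` span. -/
theorem span_trans {G : Set ((E ≃ₗᵢ[ℝ] E) × E)} (hG : IsBieb G) :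
    Submodule.span ℝ {a : E | ((1 : E ≃ₗᵢ[ℝ] E), a) ∈ G} = ⊤ := by
  set W := Submodule.span ℝ {a : E | ((1 : E ≃ₗᵢ[ℝ] E), a) ∈ G} with hW
  rw [← Submodule.orthogonal_eq_bot_iff, Submodule.eq_bot_iff]
  intro u hu
  by_contra hne
  have hun : 0 < ‖u‖ := norm_pos_iff.2 hne
  obtain ⟨g, hg, hd, s, hs0, hs⟩ := mini hG u (show (0 : ℝ) < 1 / 2 by norm_num)
    (show 0 < ‖u‖ / 2 by positivity)
  have h1 := small_trans hG hg hd
  have h2 : g.2 ∈ W := by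
    refine Submodule.subset_span ?_
    change ((1 : E ≃ₗᵢ[ℝ] E), g.2) ∈ G
    rw [← h1]
    exact hg
  have h3 : ⟪g.2, s • u⟫_ℝ = 0 := by
    rw [real_inner_smul_right, (Submodule.mem_orthogonal _ _).1 hu _ h2, mul_zero]
  have h4 : ‖g.2 - s • u‖ ^ 2 = ‖g.2‖ ^ 2 + (s * ‖u‖) ^ 2 := by
    rw [norm_sub_sq_real, h3, norm_smul, Real.norm_eq_abs, abs_of_pos hs0]; ring
  have h5 : ‖g.2 - s • u‖ ^ 2 ≤ (‖u‖ / 2 * s) ^ 2 := pow_le_pow_left₀ (norm_nonneg _) hs 2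
  have h6 : 0 < s * ‖u‖ := by positivity
  nlinarith [sq_nonneg ‖g.2‖]

/-- **Bieberbach's first theorem**: `G` is finite modulo `N` times its translations. -/
theorem finite_classes {G : Set ((E ≃ₗᵢ[ℝ] E) × E)} (hG : IsBieb G) {N : ℕ} (hN : 0 < N) :
    ∃ F : Set ((E ≃ₗᵢ[ℝ] E) × E), F.Finite ∧ F ⊆ G ∧ ∀ g ∈ G, ∃ f ∈ F, ∃ l : E,
      ((1 : E ≃ₗᵢ[ℝ] E), l) ∈ G ∧ g.1 = f.1 ∧ g.2 = f.2 + (N : ℝ) • l := by
  have hspan := span_trans hG
  obtain ⟨B, hBs, hBspan, hBli⟩ := exists_linearIndependent ℝ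
    {a : E | ((1 : E ≃ₗᵢ[ℝ] E), a) ∈ G}
  have hBtop : ⊤ ≤ Submodule.span ℝ (Set.range ((↑) : B → E)) := by
    rw [Subtype.range_coe, hBspan, hspan]
  let b : Module.Basis B ℝ E := Module.Basis.mk hBli hBtop
  have : Fintype B := FiniteDimensional.fintypeBasisIndex b
  have hfl : ∀ x : E, ((ZSpan.floor b x : Submodule.span ℤ (Set.range b)) : E) ∈ trans hG := by
    intro x
    have h1 : Submodule.span ℤ (Set.range b) ≤ (trans hG).toIntSubmodule := by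
      rw [Submodule.span_le]
      rintro _ ⟨i, rfl⟩
      have : b i = i := Module.Basis.mk_apply hBli hBtop i
      rw [this]
      exact hBs i.2
    exact h1 (ZSpan.floor b x).2
  have hNR : (0 : ℝ) < N := by exact_mod_cast hN
  refine ⟨{g | g ∈ G ∧ ‖g.2‖ ≤ N * ∑ i, ‖b i‖}, finite_ball hG _, fun g hg => hg.1,
    fun g hg => ?_⟩
  set l : E := ((ZSpan.floor b ((N : ℝ)⁻¹ • g.2) : Submodule.span ℤ (Set.range b)) : E) with hl
  have hlG : l ∈ trans hG := hfl _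
  have hNl : -((N : ℝ) • l) ∈ trans hG := by
    refine (trans hG).neg_mem ?_
    have : (N : ℝ) • l = N • l := by
      rw [Nat.cast_smul_eq_nsmul]
    rw [this]
    exact (trans hG).nsmul_mem hlG N
  have h1 := hG.mul _ (mem_trans.1 hNl) _ hg
  refine ⟨(g.1, g.2 - (N : ℝ) • l), ⟨?_, ?_⟩, l, mem_trans.1 hlG, rfl, ?_⟩
  · have h2 : ((1 : E ≃ₗᵢ[ℝ] E) * g.1, -((N : ℝ) • l) + (1 : E ≃ₗᵢ[ℝ] E) g.2) =
      (g.1, g.2 - (N : ℝ) • l) := by
      rw [one_mul, one_app, neg_add_eq_sub]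
    rw [← h2]
    exact h1
  · have h3 : g.2 - (N : ℝ) • l = (N : ℝ) • ZSpan.fract b ((N : ℝ)⁻¹ • g.2) := by
      rw [ZSpan.fract_apply, smul_sub, smul_inv_smul₀ hNR.ne']
    change ‖g.2 - (N : ℝ) • l‖ ≤ _
    rw [h3, norm_smul, Real.norm_eq_abs, abs_of_pos hNR]
    exact mul_le_mul_of_nonneg_left (ZSpan.norm_fract_le b _) hNR.le
  · change g.2 = g.2 - (N : ℝ) • l + (N : ℝ) • l
    abel

end Pool.Agent.H29.Bieb
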