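import Pool.Agent.H29.Bieb.Basic

/-!
# The first Bieberbach theorem: elements with small rotation part are translations
-/

set_option autoImplicit false

open scoped InnerProductSpace
open Filter Topology

namespace Pool.Agent.H29.Bieb

variable {E : Type*} [NormedAddCommGroup E] [InnerProductSpace ℝ E] [FiniteDimensional ℝ E]

lemma exists_unit_top {A : E ≃ₗᵢ[ℝ] E} (hA : A ≠ 1) : ∃ u ∈ topE A, ‖u‖ = 1 := by
  have : ProperSpace E := FiniteDimensional.proper_real E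
  have hne : (Metric.sphere (0 : E) 1).Nonempty := by
    have : ∃ x, A x ≠ x := by
      by_contra h
      push Not at h
      exact hA (by ext x; simpa using h x)
    obtain ⟨x, hx⟩ := this
    have hx0 : x ≠ 0 := by
      rintro rfl
      exact hx (map_zero _)
    refine ⟨‖x‖⁻¹ • x, ?_⟩
    rw [mem_sphere_zero_iff_norm, norm_smul, norm_inv, norm_norm,
      inv_mul_cancel₀ (norm_ne_zero_iff.2 hx0)]
  have hcont : Continuous fun x : E => ‖A x - x‖ := by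
    exact ((A.continuous).sub continuous_id).norm
  obtain ⟨u, hu, hmax⟩ := (isCompact_sphere (0 : E) 1).exists_isMaxOn hne hcont.continuousOn
  have hu1 : ‖u‖ = 1 := mem_sphere_zero_iff_norm.1 hu
  refine ⟨u, topE_of_norm ?_, hu1⟩
  rw [hu1, mul_one]
  refine dev_le_of (norm_nonneg _) fun x => ?_
  by_cases hx : x = 0
  · simp [hx]
  have hxn : 0 < ‖x‖ := norm_pos_iff.2 hx
  have hmem : ‖x‖⁻¹ • x ∈ Metric.sphere (0 : E) 1 := by
    rw [mem_sphere_zero_iff_norm, norm_smul, norm_inv, norm_norm, inv_mul_cancel₀ hxn.ne']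
  have h := hmax hmem
  simp only [Set.mem_ofPred_eq] at h
  rw [map_smul, ← smul_sub, norm_smul, norm_inv, norm_norm] at h
  rwa [inv_mul_le_iff₀ hxn, mul_comm] at h

lemma exists_gap {A : E ≃ₗᵢ[ℝ] E} (hA : A ≠ 1) :
    ∃ m', 0 ≤ m' ∧ m' < dev A ∧ ∀ q ∈ (topE A)ᗮ, ‖A q - q‖ ≤ m' * ‖q‖ := by
  have : ProperSpace E := FiniteDimensional.proper_real E
  have hcont : Continuous fun x : E => ‖A x - x‖ := by
    exact ((A.continuous).sub continuous_id).norm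
  have hdev : 0 < dev A := lt_of_le_of_ne (dev_nonneg A) fun h => hA (dev_eq_zero h.symm)
  have hK : IsCompact (Metric.sphere (0 : E) 1 ∩ ((topE A)ᗮ : Set E)) :=
    (isCompact_sphere (0 : E) 1).inter_right (Submodule.isClosed_orthogonal _)
  have hscale : ∀ q ∈ (topE A)ᗮ, q ≠ 0 →
      ‖q‖⁻¹ • q ∈ Metric.sphere (0 : E) 1 ∩ ((topE A)ᗮ : Set E) := by
    intro q hq hq0
    refine ⟨?_, Submodule.smul_mem _ _ hq⟩
    rw [mem_sphere_zero_iff_norm, norm_smul, norm_inv, norm_norm,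
      inv_mul_cancel₀ (norm_ne_zero_iff.2 hq0)]
  rcases (Metric.sphere (0 : E) 1 ∩ ((topE A)ᗮ : Set E)).eq_empty_or_nonempty with hem | hne
  · refine ⟨0, le_rfl, hdev, fun q hq => ?_⟩
    by_cases hq0 : q = 0
    · simp [hq0]
    · exact absurd (hscale q hq hq0) (by rw [hem]; exact Set.notMem_empty _)
  · obtain ⟨x, hx, hmax⟩ := hK.exists_isMaxOn hne hcont.continuousOn
    have hx1 : ‖x‖ = 1 := mem_sphere_zero_iff_norm.1 hx.1
    refine ⟨‖A x - x‖, norm_nonneg _, ?_, fun q hq => ?_⟩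
    · by_contra hcon
      push Not at hcon
      have h1 : x ∈ topE A := topE_of_norm (by rw [hx1, mul_one]; exact hcon)
      have h2 : ⟪x, x⟫_ℝ = 0 := (Submodule.mem_orthogonal _ _).1 hx.2 x h1
      rw [inner_self_eq_zero.1 h2, norm_zero] at hx1
      exact zero_ne_one hx1
    · by_cases hq0 : q = 0
      · simp [hq0]
      have hqn : 0 < ‖q‖ := norm_pos_iff.2 hq0
      have h := hmax (hscale q hq hq0)
      simp only [Set.mem_ofPred_eq] at h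
      rw [map_smul, ← smul_sub, norm_smul, norm_inv, norm_norm] at h
      rwa [inv_mul_le_iff₀ hqn, mul_comm] at h

/-- In every direction there is an element of `G` with small rotation part whose translation part
points almost in this direction. -/
lemma mini {G : Set ((E ≃ₗᵢ[ℝ] E) × E)} (hG : IsBieb G) (u : E) {ε η : ℝ}
    (hε : 0 < ε) (hη : 0 < η) :
    ∃ g ∈ G, dev g.1 ≤ ε ∧ ∃ s > (0 : ℝ), ‖g.2 - s • u‖ ≤ η * s := by
  have : ProperSpace (E →L[ℝ] E) := FiniteDimensional.proper_real _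
  obtain ⟨R, hR⟩ := hG.cocpt
  choose g hgG hg using fun k : ℕ => hR ((k : ℝ) • u)
  have hmem : ∀ k, ((g k).1.toContinuousLinearEquiv : E →L[ℝ] E) ∈
      Metric.closedBall (0 : E →L[ℝ] E) 1 := by
    intro k
    rw [mem_closedBall_zero_iff]
    refine ContinuousLinearMap.opNorm_le_bound _ zero_le_one fun x => ?_
    rw [one_mul]
    exact ((g k).1.norm_map x).le
  obtain ⟨T, -, φ, hφ, hT⟩ := (isCompact_closedBall (0 : E →L[ℝ] E) 1).tendsto_subseq hmem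
  have hC := hT.cauchySeq
  rw [Metric.cauchySeq_iff'] at hC
  obtain ⟨i, hi⟩ := hC ε hε
  -- choose `j` large
  obtain ⟨j, hj⟩ := exists_nat_gt (max (i : ℝ) ((R + ‖(g (φ i)).2‖) / η))
  have hij : i ≤ j := by
    have : (i : ℝ) < j := (le_max_left _ _).trans_lt hj
    exact_mod_cast this.le
  have hj2 : (R + ‖(g (φ i)).2‖) / η < (φ j : ℝ) := by
    refine ((le_max_right _ _).trans_lt hj).trans_le ?_
    exact_mod_cast hφ.id_le j
  have hφj : (0 : ℝ) < φ j := by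
    have h1 : (0 : ℝ) ≤ i := Nat.cast_nonneg _
    have h2 : (0 : ℝ) < j := h1.trans_lt ((le_max_left _ _).trans_lt hj)
    exact h2.trans_le (by exact_mod_cast hφ.id_le j)
  have hdist := hi j hij
  have hmul := hG.mul _ (hgG (φ j)) _ (hG.inv _ (hgG (φ i)))
  refine ⟨_, hmul, ?_, φ j, hφj, ?_⟩
  · refine dev_le_of hε.le fun x => ?_
    have e1 : ((g (φ j)).1 * (g (φ i)).1⁻¹) x - x =
        (((g (φ j)).1.toContinuousLinearEquiv : E →L[ℝ] E) -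
          ((g (φ i)).1.toContinuousLinearEquiv : E →L[ℝ] E)) ((g (φ i)).1⁻¹ x) := by
      rw [_root_.sub_apply]
      change (g (φ j)).1 ((g (φ i)).1⁻¹ x) - x =
        (g (φ j)).1 ((g (φ i)).1⁻¹ x) - (g (φ i)).1 ((g (φ i)).1⁻¹ x)
      rw [inv_app]
    change ‖((g (φ j)).1 * (g (φ i)).1⁻¹) x - x‖ ≤ ε * ‖x‖
    rw [e1]
    refine (ContinuousLinearMap.le_opNorm _ _).trans ?_
    rw [LinearIsometryEquiv.norm_map]
    refine mul_le_mul_of_nonneg_right ?_ (norm_nonneg _)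
    rw [← dist_eq_norm]
    exact hdist.le
  · change ‖(g (φ j)).2 + (g (φ j)).1 (-((g (φ i)).1⁻¹ (g (φ i)).2)) - (φ j : ℝ) • u‖ ≤ η * φ j
    have h1 : ‖(g (φ j)).1 (-((g (φ i)).1⁻¹ (g (φ i)).2))‖ = ‖(g (φ i)).2‖ := by
      rw [LinearIsometryEquiv.norm_map, norm_neg, LinearIsometryEquiv.norm_map]
    have h2 : (g (φ j)).2 + (g (φ j)).1 (-((g (φ i)).1⁻¹ (g (φ i)).2)) - (φ j : ℝ) • u =
        -((φ j : ℝ) • u - (g (φ j)).2) + (g (φ j)).1 (-((g (φ i)).1⁻¹ (g (φ i)).2)) := by abel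
    rw [h2]
    refine (norm_add_le _ _).trans ?_
    rw [h1, norm_neg]
    have h3 := hg (φ j)
    rw [div_lt_iff₀ hη] at hj2
    linarith

/-- One step of the descent. -/
lemma step {G : Set ((E ≃ₗᵢ[ℝ] E) × E)} (hG : IsBieb G) {g : (E ≃ₗᵢ[ℝ] E) × E} (hg : g ∈ G)
    (hg1 : dev g.1 ≤ 1 / 2) {m' : ℝ} (hm0 : 0 ≤ m') (hm : m' < dev g.1)
    (hgap : ∀ q ∈ (topE g.1)ᗮ, ‖g.1 q - q‖ ≤ m' * ‖q‖) {h : (E ≃ₗᵢ[ℝ] E) × E} (hh : h ∈ G)
    (hdev : dev h.1 ≤ (dev g.1 - m') / 16) (hmin : h.1 ≠ 1 → ‖g.2‖ ≤ 2 * ‖h.2‖)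
    {p q : E} (hp : p ∈ topE g.1) (hq : q ∈ (topE g.1)ᗮ) (hpq : h.2 = p + q) (hlt : ‖q‖ < ‖p‖) :
    ∃ h' ∈ G, dev h'.1 ≤ (dev g.1 - m') / 16 ∧
      (∃ p' ∈ topE g.1, ∃ q' ∈ (topE g.1)ᗮ, h'.2 = p' + q' ∧ ‖q'‖ < ‖p'‖) ∧
      ‖h'.2‖ ≤ 3 / 4 * ‖h.2‖ := by
  set κ := (dev g.1 - m') / 16 with hκ
  have hκ0 : 0 < κ := by rw [hκ]; linarith
  have hκ1 : κ ≤ 1 / 32 := by rw [hκ]; linarith
  have hd0 := dev_nonneg g.1
  have hdh0 := dev_nonneg h.1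
  -- the commutator
  have c1 := hG.mul _ (hG.mul _ (hG.mul _ hg _ hh) _ (hG.inv _ hg)) _ (hG.inv _ hh)
  set C := g.1 * h.1 * g.1⁻¹ * h.1⁻¹ with hC
  have hCdev : dev C ≤ dev h.1 := by
    refine (dev_comm g.1 h.1).trans ?_
    nlinarith
  set r : E := (h.2 - C h.2) + (g.2 - (g.1 * h.1 * g.1⁻¹) g.2) with hr
  have hb : ((g.2 + g.1 h.2) + (g.1 * h.1) (-(g.1⁻¹ g.2))) +
      (g.1 * h.1 * g.1⁻¹) (-(h.1⁻¹ h.2)) = (g.1 h.2 - h.2) + r := by
    have e1 : (g.1 * h.1) (-(g.1⁻¹ g.2)) = -((g.1 * h.1 * g.1⁻¹) g.2) := by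
      rw [map_neg]; rfl
    have e2 : (g.1 * h.1 * g.1⁻¹) (-(h.1⁻¹ h.2)) = -(C h.2) := by
      rw [map_neg]; rfl
    rw [e1, e2, hr]
    abel
  have hpn : 0 < ‖p‖ := (norm_nonneg q).trans_lt hlt
  have hbn : ‖h.2‖ ≤ 2 * ‖p‖ := by
    rw [hpq]
    refine (norm_add_le _ _).trans ?_
    linarith
  have hrn : ‖r‖ ≤ 3 * κ * ‖h.2‖ := by
    by_cases h1 : h.1 = 1
    · have : r = 0 := by
        rw [hr, hC, h1]
        simp
      rw [this, norm_zero]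
      positivity
    · have h2 := hmin h1
      have h3 : ‖h.2 - C h.2‖ ≤ dev h.1 * ‖h.2‖ := by
        rw [norm_sub_rev]
        exact (dev_le C h.2).trans (mul_le_mul_of_nonneg_right hCdev (norm_nonneg _))
      have h4 : ‖g.2 - (g.1 * h.1 * g.1⁻¹) g.2‖ ≤ dev h.1 * ‖g.2‖ := by
        have e : g.2 - (g.1 * h.1 * g.1⁻¹) g.2 =
            g.1 (g.1⁻¹ g.2 - h.1 (g.1⁻¹ g.2)) := by
          rw [map_sub, inv_app]; rfl
        rw [e, LinearIsometryEquiv.norm_map, norm_sub_rev]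
        have := dev_le h.1 (g.1⁻¹ g.2)
        rwa [LinearIsometryEquiv.norm_map] at this
      calc ‖r‖ ≤ ‖h.2 - C h.2‖ + ‖g.2 - (g.1 * h.1 * g.1⁻¹) g.2‖ := norm_add_le _ _
        _ ≤ dev h.1 * ‖h.2‖ + dev h.1 * (2 * ‖h.2‖) :=
            add_le_add h3 (h4.trans (mul_le_mul_of_nonneg_left h2 hdh0))
        _ = 3 * dev h.1 * ‖h.2‖ := by ring
        _ ≤ 3 * κ * ‖h.2‖ := by
            refine mul_le_mul_of_nonneg_right ?_ (norm_nonneg _)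
            linarith
  have hrp : ‖r‖ ≤ 6 * κ * ‖p‖ := by
    calc ‖r‖ ≤ 3 * κ * ‖h.2‖ := hrn
      _ ≤ 3 * κ * (2 * ‖p‖) := mul_le_mul_of_nonneg_left hbn (by positivity)
      _ = 6 * κ * ‖p‖ := by ring
  -- decompose `r`
  obtain ⟨r1, hr1, r2, hr2, hr12⟩ := (topE g.1).exists_add_mem_mem_orthogonal r
  have hrsq : ‖r‖ ^ 2 = ‖r1‖ ^ 2 + ‖r2‖ ^ 2 := by
    rw [hr12, norm_add_sq_real, (Submodule.mem_orthogonal _ _).1 hr2 r1 hr1]; ring
  have hr1n : ‖r1‖ ≤ ‖r‖ := by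
    refine le_of_sq_le_sq ?_ (norm_nonneg _)
    nlinarith [sq_nonneg ‖r2‖]
  have hr2n : ‖r2‖ ≤ ‖r‖ := by
    refine le_of_sq_le_sq ?_ (norm_nonneg _)
    nlinarith [sq_nonneg ‖r1‖]
  refine ⟨_, c1, hCdev.trans hdev, ⟨(g.1 p - p) + r1, Submodule.add_mem _
    (Submodule.sub_mem _ (topE_app hp) hp) hr1, (g.1 q - q) + r2, Submodule.add_mem _
    (Submodule.sub_mem _ (topE_perp_app hq) hq) hr2, ?_, ?_⟩, ?_⟩
  · refine hb.trans ?_
    rw [hpq, hr12, map_add]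
    abel
  · have h1 : ‖(g.1 q - q) + r2‖ ≤ m' * ‖q‖ + 6 * κ * ‖p‖ :=
      (norm_add_le _ _).trans (add_le_add (hgap q hq) (hr2n.trans hrp))
    have h2 : dev g.1 * ‖p‖ - 6 * κ * ‖p‖ ≤ ‖(g.1 p - p) + r1‖ := by
      have h3 : ‖g.1 p - p‖ ≤ ‖(g.1 p - p) + r1‖ + ‖r1‖ := by
        have : g.1 p - p = ((g.1 p - p) + r1) - r1 := by abel
        rw [this]
        refine (norm_sub_le _ _).trans ?_
        rw [add_sub_cancel_right]
      rw [topE_norm hp] at h3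
      linarith
    have h4 : m' * ‖q‖ ≤ m' * ‖p‖ := mul_le_mul_of_nonneg_left hlt.le hm0
    have h5 : dev g.1 - m' = 16 * κ := by rw [hκ]; ring
    have h6 : (dev g.1 - m') * ‖p‖ = 16 * κ * ‖p‖ := by rw [h5]
    have h7 : 0 < κ * ‖p‖ := by positivity
    nlinarith
  · have h1 : ‖(g.1 h.2 - h.2) + r‖ ≤ 3 / 4 * ‖h.2‖ := by
      refine (norm_add_le _ _).trans ?_
      have h2 := dev_le g.1 h.2
      have h3 := norm_nonneg h.2
      nlinarith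
    exact le_trans (le_of_eq (congrArg norm hb)) h1

/-- **Bieberbach, Buser**: an element whose rotation part is within `1 / 2` of the identity is a
translation. -/
theorem small_trans {G : Set ((E ≃ₗᵢ[ℝ] E) × E)} (hG : IsBieb G) {g : (E ≃ₗᵢ[ℝ] E) × E}
    (hg : g ∈ G) (hg1 : dev g.1 ≤ 1 / 2) : g.1 = 1 := by
  by_contra hne
  obtain ⟨r, hr0, hr⟩ := hG.disc
  -- the set of lengths of translation parts of bad elements
  set Z : Set ℝ := {s | ∃ g ∈ G, dev g.1 ≤ 1 / 2 ∧ g.1 ≠ 1 ∧ s = ‖g.2‖} with hZ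
  have hZne : Z.Nonempty := ⟨_, g, hg, hg1, hne, rfl⟩
  have hZr : ∀ s ∈ Z, r ≤ s := by
    rintro s ⟨k, hk, -, hk1, rfl⟩
    by_contra hcon
    push Not at hcon
    exact hk1 (by rw [hr k hk hcon])
  have hZb : BddBelow Z := ⟨r, hZr⟩
  have hinf : 0 < sInf Z := hr0.trans_le (le_csInf hZne hZr)
  obtain ⟨s, hsZ, hs⟩ := exists_lt_of_csInf_lt hZne (show sInf Z < 2 * sInf Z by linarith)
  obtain ⟨a, ha, ha1, ha2, rfl⟩ := hsZ
  have hmin : ∀ h ∈ G, dev h.1 ≤ 1 / 2 → h.1 ≠ 1 → ‖a.2‖ ≤ 2 * ‖h.2‖ := by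
    intro h hh h1 h2
    have : sInf Z ≤ ‖h.2‖ := csInf_le hZb ⟨h, hh, h1, h2, rfl⟩
    linarith
  obtain ⟨m', hm0, hm, hgap⟩ := exists_gap ha2
  obtain ⟨u, hu, hu1⟩ := exists_unit_top ha2
  have hκ0 : 0 < (dev a.1 - m') / 16 := by linarith
  have hκ1 : (dev a.1 - m') / 16 ≤ 1 / 2 := by linarith
  -- the descent
  have hdesc : ∀ k : ℕ, ∃ C : ℝ, C = C ∧ ∃ h ∈ G, dev h.1 ≤ (dev a.1 - m') / 16 ∧
      (∃ p ∈ topE a.1, ∃ q ∈ (topE a.1)ᗮ, h.2 = p + q ∧ ‖q‖ < ‖p‖) := by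
    intro k
    obtain ⟨h, hh, hd, s, hs0, hs⟩ := mini hG u hκ0 (show (0 : ℝ) < 1 / 4 by norm_num)
    refine ⟨0, rfl, h, hh, hd, ?_⟩
    obtain ⟨e1, he1, e2, he2, he12⟩ := (topE a.1).exists_add_mem_mem_orthogonal (h.2 - s • u)
    have hsq : ‖h.2 - s • u‖ ^ 2 = ‖e1‖ ^ 2 + ‖e2‖ ^ 2 := by
      rw [he12, norm_add_sq_real, (Submodule.mem_orthogonal _ _).1 he2 e1 he1]; ring
    have h1n : ‖e1‖ ≤ ‖h.2 - s • u‖ := by
      refine le_of_sq_le_sq ?_ (norm_nonneg _)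
      nlinarith [sq_nonneg ‖e2‖]
    have h2n : ‖e2‖ ≤ ‖h.2 - s • u‖ := by
      refine le_of_sq_le_sq ?_ (norm_nonneg _)
      nlinarith [sq_nonneg ‖e1‖]
    refine ⟨s • u + e1, Submodule.add_mem _ (Submodule.smul_mem _ _ hu) he1, e2, he2, ?_, ?_⟩
    · rw [add_assoc, ← he12]; abel
    · have h3 : ‖s • u‖ ≤ ‖s • u + e1‖ + ‖e1‖ := by
        have : s • u = (s • u + e1) - e1 := by abel
        rw [this]
        refine (norm_sub_le _ _).trans ?_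
        rw [add_sub_cancel_right]
      rw [norm_smul, hu1, Real.norm_eq_abs, abs_of_pos hs0, mul_one] at h3
      linarith
  obtain ⟨-, -, h0, hh0, hd0, hp0⟩ := hdesc 0
  have hit : ∀ k : ℕ, ∃ h ∈ G, dev h.1 ≤ (dev a.1 - m') / 16 ∧
      (∃ p ∈ topE a.1, ∃ q ∈ (topE a.1)ᗮ, h.2 = p + q ∧ ‖q‖ < ‖p‖) ∧
      ‖h.2‖ ≤ (3 / 4) ^ k * ‖h0.2‖ := by
    intro k
    induction k with
    | zero => exact ⟨h0, hh0, hd0, hp0, by simp⟩
    | succ k ih =>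
      obtain ⟨h, hh, hd, ⟨p, hp, q, hq, hpq, hlt⟩, hn⟩ := ih
      obtain ⟨h', hh', hd', hp', hn'⟩ := step hG ha ha1 hm0 hm hgap hh hd
        (fun h1 => hmin h hh (hd.trans hκ1) h1) hp hq hpq hlt
      refine ⟨h', hh', hd', hp', hn'.trans ?_⟩
      rw [pow_succ]
      linarith
  have hlow : ∀ h ∈ G, (∃ p ∈ topE a.1, ∃ q ∈ (topE a.1)ᗮ, h.2 = p + q ∧ ‖q‖ < ‖p‖) →
      r ≤ ‖h.2‖ := by
    rintro h hh ⟨p, hp, q, hq, hpq, hlt⟩
    by_contra hcon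
    push Not at hcon
    have h1 := hr h hh hcon
    rw [h1] at hpq
    have h2 : p = -q := by
      rw [← add_eq_zero_iff_eq_neg]; exact hpq.symm
    rw [h2, norm_neg] at hlt
    exact lt_irrefl _ hlt
  have hlim : Tendsto (fun k : ℕ => (3 / 4 : ℝ) ^ k * ‖h0.2‖) atTop (𝓝 (0 * ‖h0.2‖)) :=
    (tendsto_pow_atTop_nhds_zero_of_lt_one (by norm_num) (by norm_num)).mul_const _
  rw [zero_mul] at hlim
  obtain ⟨k, hk⟩ := (hlim.eventually (gt_mem_nhds hr0)).exists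
  obtain ⟨h, hh, -, hp, hn⟩ := hit k
  linarith [hlow h hh hp]

end Pool.Agent.H29.Bieb
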